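import Pool.Agent.N818.SN.Stm4
import Pool.Agent.N455.SN.LB

/-!
# SN-LD, SN-LE, SN-LF (helper433): `WA n`, `WD n`, `WE n`, `WF n` have the same Euler factors

The general lemmas are in `N455/SN/Gen.lean` (helper455).
-/

set_option autoImplicit false
set_option linter.unusedSectionVars false

open NumberField IsDedekindDomain WeierstrassCurve Pool.Agent.W189.NF
open Pool.Agent.W97.MT (affCount ap)
open Pool.Agent.N54.MF
open Pool.Agent.N818.SN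
open Pool.Agent.N971.MF (W)
open Pool.Agent.N971.MF.EUL (WQ fac_two fac_dvd fac_three fac_good)
open Pool.Agent.N455.SN

namespace Pool.Agent.N433.SN

/-- translation of the abscissa -/
theorem ap_shift (p : ℕ) [hp : Fact p.Prime] (hp2 : p ≠ 2) (a b a' b' s : ℤ)
    (h : ∀ x : ZMod p, x ^ 3 + (a' : ZMod p) * x ^ 2 + (b' : ZMod p) * x =
      (x + s) ^ 3 + (a : ZMod p) * (x + s) ^ 2 + (b : ZMod p) * (x + s)) :
    ap ⟨0, a', 0, b', 0⟩ p = ap ⟨0, a, 0, b, 0⟩ p := by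
  unfold ap
  rw [affCount_eq p hp2, affCount_eq p hp2]
  congr 2
  refine Fintype.sum_equiv (Equiv.addRight (s : ZMod p)) _ _ fun x => ?_
  rw [h x]
  rfl

/-- `b = e n²` is prime to `p` if `e = ±2^i 3^j` -/
theorem ndvd_b {p n : ℕ} (hp : p.Prime) (hp2 : p ≠ 2) (hp3 : p ≠ 3) (hn : ¬ p ∣ n) (i j : ℕ)
    (u : ℤ) (hu : u = 1 ∨ u = -1) : ¬ (p : ℤ) ∣ u * (2 ^ i * 3 ^ j * (n : ℤ) ^ 2) := by
  have hn' : ¬ (p : ℤ) ∣ (n : ℤ) := by exact_mod_cast hn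
  have h1 := ndvd23 hp hp2 hp3 i j 2 hn'
  rcases hu with rfl | rfl
  · rwa [one_mul]
  · rwa [neg_one_mul, dvd_neg]

section
variable (v : HeightOneSpectrum (𝓞 ℚ)) {n : ℕ}

/-- the local factors -/
def Facs (v : HeightOneSpectrum (𝓞 ℚ)) (n : ℕ) (V : WeierstrassCurve ℤ) : Prop :=
    (ng v = 2 → aV (V.map (Int.castRingHom ℚ)) v = 0 ∧ eV (V.map (Int.castRingHom ℚ)) v = 0) ∧
    (ng v = 3 → aV (V.map (Int.castRingHom ℚ)) v = -1 ∧ eV (V.map (Int.castRingHom ℚ)) v = 0) ∧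
    (ng v ∣ n → aV (V.map (Int.castRingHom ℚ)) v = 0 ∧ eV (V.map (Int.castRingHom ℚ)) v = 0) ∧
    (ng v ≠ 2 → ng v ≠ 3 → ¬ ng v ∣ n →
      aV (V.map (Int.castRingHom ℚ)) v = ap V (ng v) ∧
        eV (V.map (Int.castRingHom ℚ)) v = ng v)

/-- the local factors of a curve with discriminant `± 2^i 3^j n⁶` -/
theorem facs (hsq : Squarefree n) (hn : n % 24 = 11) (V : WeierstrassCurve ℤ) (u : ℤ)
    (hu : u = 1 ∨ u = -1) (i j : ℕ) (hΔ : V.Δ = u * (2 ^ i * 3 ^ j * (n : ℤ) ^ 6))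
    (hi : ¬ 12 ∣ i) (hj : 0 < j) (k : ℤ) (l : ℕ) (h4 : V.c₄ ^ 3 * 3 ^ l = k * V.Δ)
    (hc : V.c₄ * V.c₆ % 3 = 1) : Facs v n V := by
  have hp := ng_prime v
  have h3l : ∀ p : ℕ, p.Prime → p ≠ 3 → ¬ (p : ℤ) ∣ 3 ^ l := by
    intro p hp hp3 h
    have h6 : p ∣ 3 := by exact_mod_cast (Nat.prime_iff_prime_int.1 hp).dvd_of_dvd_pow h
    exact hp3 ((Nat.prime_dvd_prime_iff_eq hp Nat.prime_three).1 h6)
  refine ⟨fun h2 => ?_, fun h3 => ?_, fun hd => ?_, fun hp2 hp3 hd => ?_⟩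
  · refine gen_add v V (m := i) hi (c := u * (3 ^ j * (n : ℤ) ^ 6)) ?_ ?_ (k := k) (d := 3 ^ l)
      (h3l _ hp (by rw [h2]; norm_num)) h4
    · rw [h2]
      intro h
      have h1 : (2 : ℤ) ∣ 3 ^ j * (n : ℤ) ^ 6 := by
        rcases hu with rfl | rfl
        · rw [one_mul] at h
          exact_mod_cast h
        · rw [neg_one_mul, dvd_neg] at h
          exact_mod_cast h
      rcases Int.prime_two.dvd_or_dvd h1 with h3 | h3
      · have := Int.prime_two.dvd_of_dvd_pow h3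
        norm_num at this
      · have := Int.prime_two.dvd_of_dvd_pow h3
        omega
    · rw [hΔ, h2]
      push_cast
      ring
  · refine gen_three v V h3 ?_ ?_ hc
    · rw [hΔ]
      have h0 : (n : ℤ) ≠ 0 := by omega
      rcases hu with rfl | rfl
      · positivity
      · rw [neg_one_mul, neg_ne_zero]
        positivity
    · rw [hΔ]
      obtain ⟨j', rfl⟩ : ∃ j', j = j' + 1 := ⟨j - 1, by omega⟩
      exact ⟨u * (2 ^ i * 3 ^ j' * (n : ℤ) ^ 6), by ring⟩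
  · have hp2 : ng v ≠ 2 := by
      intro h; rw [h] at hd; omega
    have hp3 : ng v ≠ 3 := by
      intro h; rw [h] at hd; omega
    obtain ⟨m, hm, hpm⟩ := sq_factor hp hsq hd
    have hpm' : ¬ ((ng v : ℕ) : ℤ) ∣ (m : ℤ) := by exact_mod_cast hpm
    refine gen_add v V (m := 6) (by norm_num) (c := u * (2 ^ i * 3 ^ j * (m : ℤ) ^ 6)) ?_ ?_
      (k := k) (d := 3 ^ l) (h3l _ hp hp3) h4
    · have h1 := ndvd23 hp hp2 hp3 i j 6 hpm'
      rcases hu with rfl | rfl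
      · rwa [one_mul]
      · rwa [neg_one_mul, dvd_neg]
    · have : (n : ℤ) = (ng v : ℤ) * m := by exact_mod_cast hm
      rw [hΔ, this]
      ring
  · refine gen_good v V ?_
    rw [hΔ]
    have hd' : ¬ ((ng v : ℕ) : ℤ) ∣ (n : ℤ) := by exact_mod_cast hd
    have h1 := ndvd23 hp hp2 hp3 i j 6 hd'
    rcases hu with rfl | rfl
    · rwa [one_mul]
    · rwa [neg_one_mul, dvd_neg]

theorem mod3 (hn : n % 24 = 11) (c c' : ℤ) (h : c * 2 ^ 2 * (c' * 2 ^ 3) % 3 = 1) :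
    (c * (n : ℤ) ^ 2 * (c' * (n : ℤ) ^ 3)) % 3 = 1 := by
  have h1 : (n : ℤ) ≡ 2 [ZMOD 3] := by
    show (n : ℤ) % 3 = 2 % 3
    omega
  have h2 : (c * (n : ℤ) ^ 2 * (c' * (n : ℤ) ^ 3)) ≡ (c * (2 : ℤ) ^ 2 * (c' * (2 : ℤ) ^ 3)) [ZMOD 3] :=
    ((h1.pow 2).mul_left _).mul ((h1.pow 3).mul_left _)
  rw [h2]
  exact h

theorem facs_D (hsq : Squarefree n) (hn : n % 24 = 11) : Facs v n (WD n) :=
  facs v hsq hn (WD n) 1 (Or.inl rfl) 10 4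
    (by
      simp only [WD, WeierstrassCurve.Δ, WeierstrassCurve.b₂, WeierstrassCurve.b₄,
        WeierstrassCurve.b₆, WeierstrassCurve.b₈]
      ring)
    (by norm_num) (by norm_num) 1556068 4
    (by
      simp only [WD, WeierstrassCurve.Δ, WeierstrassCurve.c₄, WeierstrassCurve.b₂,
        WeierstrassCurve.b₄, WeierstrassCurve.b₆, WeierstrassCurve.b₈]
      ring)
    (by
      have e : (WD n).c₄ * (WD n).c₆ = 1168 * (n : ℤ) ^ 2 * (-38080 * (n : ℤ) ^ 3) := by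
        simp only [WD, WeierstrassCurve.c₄, WeierstrassCurve.c₆, WeierstrassCurve.b₂,
          WeierstrassCurve.b₄, WeierstrassCurve.b₆]
        ring
      rw [e]
      exact mod3 hn _ _ (by norm_num))

theorem facs_E (hsq : Squarefree n) (hn : n % 24 = 11) : Facs v n (WE n) :=
  facs v hsq hn (WE n) (-1) (Or.inr rfl) 11 8
    (by
      simp only [WE, WeierstrassCurve.Δ, WeierstrassCurve.b₂, WeierstrassCurve.b₄,
        WeierstrassCurve.b₆, WeierstrassCurve.b₈]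
      ring)
    (by norm_num) (by norm_num) 207646 8
    (by
      simp only [WE, WeierstrassCurve.Δ, WeierstrassCurve.c₄, WeierstrassCurve.b₂,
        WeierstrassCurve.b₄, WeierstrassCurve.b₆, WeierstrassCurve.b₈]
      ring)
    (by
      have e : (WE n).c₄ * (WE n).c₆ = -752 * (n : ℤ) ^ 2 * (-150976 * (n : ℤ) ^ 3) := by
        simp only [WE, WeierstrassCurve.c₄, WeierstrassCurve.c₆, WeierstrassCurve.b₂,
          WeierstrassCurve.b₄, WeierstrassCurve.b₆]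
        ring
      rw [e]
      exact mod3 hn _ _ (by norm_num))

theorem facs_F (hsq : Squarefree n) (hn : n % 24 = 11) : Facs v n (WF n) :=
  facs v hsq hn (WF n) 1 (Or.inl rfl) 11 2
    (by
      simp only [WF, WeierstrassCurve.Δ, WeierstrassCurve.b₂, WeierstrassCurve.b₄,
        WeierstrassCurve.b₆, WeierstrassCurve.b₈]
      ring)
    (by norm_num) (by norm_num) 3065617154 2
    (by
      simp only [WF, WeierstrassCurve.Δ, WeierstrassCurve.c₄, WeierstrassCurve.b₂,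
        WeierstrassCurve.b₄, WeierstrassCurve.b₆, WeierstrassCurve.b₈]
      ring)
    (by
      have e : (WF n).c₄ * (WF n).c₆ = 18448 * (n : ℤ) ^ 2 * (-2505664 * (n : ℤ) ^ 3) := by
        simp only [WF, WeierstrassCurve.c₄, WeierstrassCurve.c₆, WeierstrassCurve.b₂,
          WeierstrassCurve.b₄, WeierstrassCurve.b₆]
        ring
      rw [e]
      exact mod3 hn _ _ (by norm_num))

end

/-! ### the traces -/

theorem ap_D (p : ℕ) [hp : Fact p.Prime] (hp2 : p ≠ 2) (hp3 : p ≠ 3) (n : ℕ) (hn : ¬ p ∣ n) :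
    ap (WD n) p = ap (WA n) p := by
  have h1 := ap_shift p hp2 (-2 * (n : ℤ)) (-3 * (n : ℤ) ^ 2) (-5 * (n : ℤ)) (4 * (n : ℤ) ^ 2)
    (-(n : ℤ)) (by intro x; push_cast; ring)
  have hb : ¬ (p : ℤ) ∣ 4 * (n : ℤ) ^ 2 := by
    have h2 := ndvd_b hp.out hp2 hp3 hn 2 0 1 (Or.inl rfl)
    have e : (1 : ℤ) * (2 ^ 2 * 3 ^ 0 * (n : ℤ) ^ 2) = 4 * (n : ℤ) ^ 2 := by ring
    rwa [e] at h2
  have h2 := ap_isog p hp2 (-5 * (n : ℤ)) (4 * (n : ℤ) ^ 2) hb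
  have e1 : WD n = ⟨0, -2 * (-5 * (n : ℤ)), 0, (-5 * (n : ℤ)) ^ 2 - 4 * (4 * (n : ℤ) ^ 2), 0⟩ := by
    unfold WD
    congr 1 <;> ring
  have e2 : WA n = ⟨0, -2 * (n : ℤ), 0, -3 * (n : ℤ) ^ 2, 0⟩ := by
    unfold WA
    congr 1
  rw [e1, e2, ← h2, h1]

theorem ap_E (p : ℕ) [hp : Fact p.Prime] (hp2 : p ≠ 2) (hp3 : p ≠ 3) (n : ℕ) (hn : ¬ p ∣ n) :
    ap (WE n) p = ap (WD n) p := by
  have h1 := ap_shift p hp2 (10 * (n : ℤ)) (9 * (n : ℤ) ^ 2) (7 * (n : ℤ)) (-8 * (n : ℤ) ^ 2)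
    (-(n : ℤ)) (by intro x; push_cast; ring)
  have hb : ¬ (p : ℤ) ∣ -8 * (n : ℤ) ^ 2 := by
    have h2 := ndvd_b hp.out hp2 hp3 hn 3 0 (-1) (Or.inr rfl)
    have e : (-1 : ℤ) * (2 ^ 3 * 3 ^ 0 * (n : ℤ) ^ 2) = -8 * (n : ℤ) ^ 2 := by ring
    rwa [e] at h2
  have h2 := ap_isog p hp2 (7 * (n : ℤ)) (-8 * (n : ℤ) ^ 2) hb
  have e1 : WE n = ⟨0, -2 * (7 * (n : ℤ)), 0, (7 * (n : ℤ)) ^ 2 - 4 * (-8 * (n : ℤ) ^ 2), 0⟩ := by
    unfold WE
    congr 1 <;> ring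
  have e2 : WD n = ⟨0, 10 * (n : ℤ), 0, 9 * (n : ℤ) ^ 2, 0⟩ := rfl
  rw [e1, e2, ← h2, h1]

theorem ap_F (p : ℕ) [hp : Fact p.Prime] (hp2 : p ≠ 2) (hp3 : p ≠ 3) (n : ℕ) (hn : ¬ p ∣ n) :
    ap (WF n) p = ap (WD n) p := by
  have h1 := ap_shift p hp2 (10 * (n : ℤ)) (9 * (n : ℤ) ^ 2) (-17 * (n : ℤ)) (72 * (n : ℤ) ^ 2)
    (-9 * (n : ℤ)) (by intro x; push_cast; ring)
  have hb : ¬ (p : ℤ) ∣ 72 * (n : ℤ) ^ 2 := by
    have h2 := ndvd_b hp.out hp2 hp3 hn 3 2 1 (Or.inl rfl)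
    have e : (1 : ℤ) * (2 ^ 3 * 3 ^ 2 * (n : ℤ) ^ 2) = 72 * (n : ℤ) ^ 2 := by ring
    rwa [e] at h2
  have h2 := ap_isog p hp2 (-17 * (n : ℤ)) (72 * (n : ℤ) ^ 2) hb
  have e1 : WF n = ⟨0, -2 * (-17 * (n : ℤ)), 0, (-17 * (n : ℤ)) ^ 2 - 4 * (72 * (n : ℤ) ^ 2), 0⟩ := by
    unfold WF
    congr 1 <;> ring
  have e2 : WD n = ⟨0, 10 * (n : ℤ), 0, 9 * (n : ℤ) ^ 2, 0⟩ := rfl
  rw [e1, e2, ← h2, h1]

/-- **SN-LD** -/
theorem t_LD : S_LD := by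
  intro n hn v
  obtain ⟨hsq, hn⟩ := hn
  refine euler_eq v ?_
  obtain ⟨f2, f3, fd, fg⟩ := facs_D v hsq hn
  rw [base_WA]
  by_cases h2 : ng v = 2
  · obtain ⟨a1, a2⟩ := f2 h2
    obtain ⟨b1, b2⟩ := fac_two v hn h2
    exact ⟨a1.trans b1.symm, a2.trans b2.symm⟩
  by_cases h3 : ng v = 3
  · obtain ⟨a1, a2⟩ := f3 h3
    obtain ⟨b1, b2⟩ := fac_three v hn h3
    exact ⟨a1.trans b1.symm, a2.trans b2.symm⟩
  by_cases hd : ng v ∣ n
  · obtain ⟨a1, a2⟩ := fd hd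
    obtain ⟨b1, b2⟩ := fac_dvd v hsq hn hd
    exact ⟨a1.trans b1.symm, a2.trans b2.symm⟩
  · obtain ⟨a1, a2⟩ := fg h2 h3 hd
    obtain ⟨b1, b2⟩ := fac_good v (n := n) h2 h3 hd
    have : Fact (ng v).Prime := ⟨ng_prime v⟩
    rw [ap_D (ng v) h2 h3 n hd, WA_eq] at a1
    exact ⟨a1.trans b1.symm, a2.trans b2.symm⟩

/-- **SN-LE** -/
theorem t_LE : S_LE := by
  intro n hn v
  obtain ⟨hsq, hn⟩ := hn
  refine euler_eq v ?_
  obtain ⟨f2, f3, fd, fg⟩ := facs_E v hsq hn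
  obtain ⟨g2, g3, gd, gg⟩ := facs_D v hsq hn
  by_cases h2 : ng v = 2
  · exact ⟨(f2 h2).1.trans (g2 h2).1.symm, (f2 h2).2.trans (g2 h2).2.symm⟩
  by_cases h3 : ng v = 3
  · exact ⟨(f3 h3).1.trans (g3 h3).1.symm, (f3 h3).2.trans (g3 h3).2.symm⟩
  by_cases hd : ng v ∣ n
  · exact ⟨(fd hd).1.trans (gd hd).1.symm, (fd hd).2.trans (gd hd).2.symm⟩
  · have : Fact (ng v).Prime := ⟨ng_prime v⟩
    obtain ⟨a1, a2⟩ := fg h2 h3 hd
    rw [ap_E (ng v) h2 h3 n hd] at a1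
    exact ⟨a1.trans (gg h2 h3 hd).1.symm, a2.trans (gg h2 h3 hd).2.symm⟩

/-- **SN-LF** -/
theorem t_LF : S_LF := by
  intro n hn v
  obtain ⟨hsq, hn⟩ := hn
  refine euler_eq v ?_
  obtain ⟨f2, f3, fd, fg⟩ := facs_F v hsq hn
  obtain ⟨g2, g3, gd, gg⟩ := facs_D v hsq hn
  by_cases h2 : ng v = 2
  · exact ⟨(f2 h2).1.trans (g2 h2).1.symm, (f2 h2).2.trans (g2 h2).2.symm⟩
  by_cases h3 : ng v = 3
  · exact ⟨(f3 h3).1.trans (g3 h3).1.symm, (f3 h3).2.trans (g3 h3).2.symm⟩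
  by_cases hd : ng v ∣ n
  · exact ⟨(fd hd).1.trans (gd hd).1.symm, (fd hd).2.trans (gd hd).2.symm⟩
  · have : Fact (ng v).Prime := ⟨ng_prime v⟩
    obtain ⟨a1, a2⟩ := fg h2 h3 hd
    rw [ap_F (ng v) h2 h3 n hd] at a1
    exact ⟨a1.trans (gg h2 h3 hd).1.symm, a2.trans (gg h2 h3 hd).2.symm⟩

end Pool.Agent.N433.SN
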